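import Mathlib

/-!
# Coefficients of products of sums of `k` distinct variables

Every coefficient of such a product is at most the balanced multinomial coefficient.
-/

namespace Pool.Agent.Results.MP_3eac50_co.BalancedMultinomial

open Finset Real

/-! ### Definitions -/

/-- The polynomial `S = ∏_{i=1}^n (x_{i,1} + … + x_{i,k})`, after the symbol `x_{i,j}` has been
replaced by the variable `c_{x i j}`. -/
noncomputable def S {n k r : ℕ} (x : Fin n → Fin k → Fin r) : MvPolynomial (Fin r) ℤ :=
  ∏ i : Fin n, ∑ j : Fin k, MvPolynomial.X (x i j)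

/-- The balanced multinomial coefficient `M(n,k) = n! / ((q+1)!^s (q!)^{k-s})`, where `n = q k + s`,
`0 ≤ s < k` (as a rational number). -/
def M (n k : ℕ) : ℚ :=
  (n.factorial : ℚ) / (((n / k + 1).factorial : ℚ) ^ (n % k) *
    ((n / k).factorial : ℚ) ^ (k - n % k))

/-! ### The entropy bound -/

/-- `log d! / d` -/
noncomputable def R (d : ℕ) : ℝ := log (d.factorial : ℝ) / d

theorem mul_R (d : ℕ) : (d : ℝ) * R d = log (d.factorial : ℝ) := by
  unfold R
  rcases Nat.eq_zero_or_pos d with h | h
  · subst h; simp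
  · have : (d : ℝ) ≠ 0 := by positivity
    field_simp

section Entropy

variable {ι κ : Type*} [Fintype ι] [DecidableEq ι] [Fintype κ] [DecidableEq κ]
  (A : ι → Finset κ)

/-- configurations: partial choice functions on `I` with prescribed multiplicities -/
def Conf (I : Finset ι) (α : κ → ℕ) : Finset (ι → Option κ) :=
  {φ | (∀ i ∈ I, ∃ j ∈ A i, φ i = some j) ∧ (∀ i, i ∉ I → φ i = none) ∧
    ∀ j, #{i | φ i = some j} = α j}

/-- degrees -/
def dg (I : Finset ι) (j : κ) : ℕ := #{i ∈ I | j ∈ A i}

/-- the bound -/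
noncomputable def Bd (I : Finset ι) (α : κ → ℕ) : ℝ :=
  ∑ j, ((α j : ℝ) * R (dg A I j) - log ((α j).factorial : ℝ))

variable {A}

theorem filter_eq {I : Finset ι} {α : κ → ℕ} {φ : ι → Option κ} (hφ : φ ∈ Conf A I α) (j : κ) :
    #{i ∈ I | φ i = some j} = α j := by
  simp only [Conf, mem_filter, mem_univ, true_and] at hφ
  rw [← hφ.2.2 j]
  congr 1
  ext i
  simp only [mem_filter, mem_univ, true_and]
  constructor
  · exact fun h => h.2
  · intro h
    refine ⟨?_, h⟩
    by_contra hi
    rw [hφ.2.1 i hi] at h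
    cases h

theorem sum_fiber (I : Finset ι) (α : κ → ℕ) (j : κ) :
    ∑ i ∈ I with j ∈ A i, #{φ ∈ Conf A I α | φ i = some j} = α j * #(Conf A I α) := by
  have h1 : ∑ i ∈ I with j ∈ A i, #{φ ∈ Conf A I α | φ i = some j} =
      ∑ i ∈ I, #{φ ∈ Conf A I α | φ i = some j} := by
    rw [sum_filter]
    apply sum_congr rfl
    intro i hi
    split_ifs with h
    · rfl
    · symm
      rw [card_eq_zero, filter_eq_empty_iff]
      intro φ hφ hj
      simp only [Conf, mem_filter, mem_univ, true_and] at hφ
      obtain ⟨j', hj', hj2⟩ := hφ.1 i hi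
      rw [hj] at hj2
      cases hj2
      exact h hj'
  rw [h1]
  have h2 : ∀ i ∈ I, #{φ ∈ Conf A I α | φ i = some j} =
      ∑ φ ∈ Conf A I α, if φ i = some j then 1 else 0 := by
    intro i _
    rw [card_filter]
  rw [sum_congr rfl h2, sum_comm]
  have h3 : ∀ φ ∈ Conf A I α, (∑ i ∈ I, if φ i = some j then 1 else 0) = α j := by
    intro φ hφ
    rw [← card_filter]
    exact filter_eq hφ j
  rw [sum_congr rfl h3, sum_const, smul_eq_mul, mul_comm]

omit [Fintype ι] [DecidableEq ι] in
/-- `x log x` is convex, in the form used. -/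
theorem jensen (s : Finset ι) (t : ι → ℝ) (ht : ∀ i ∈ s, 0 ≤ t i) (hs : 0 < #s) :
    (∑ i ∈ s, t i) * log ((∑ i ∈ s, t i) / #s) ≤ ∑ i ∈ s, t i * log (t i) := by
  have hpos : (0 : ℝ) < #s := by exact_mod_cast hs
  have h := (Real.convexOn_mul_log).map_sum_le (t := s) (w := fun _ => (#s : ℝ)⁻¹) (p := t)
    (fun _ _ => by positivity) (by simp; field_simp) ht
  simp only [smul_eq_mul, ← mul_sum] at h
  rw [mul_assoc, mul_le_mul_iff_right₀ (by positivity)] at h
  rwa [div_eq_inv_mul]

theorem fiber_le {I : Finset ι} {α : κ → ℕ} {i : ι} (j : κ) :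
    #{φ ∈ Conf A I α | φ i = some j} ≤ #(Conf A (I.erase i) (Function.update α j (α j - 1))) := by
  apply card_le_card_of_injOn (fun φ => Function.update φ i none)
  · intro φ hφ
    simp only [coe_filter, Set.mem_ofPred_eq] at hφ
    obtain ⟨hφ, hj⟩ := hφ
    have hc := hφ
    simp only [Conf, mem_filter, mem_univ, true_and] at hφ
    simp only [Conf, coe_filter, mem_univ, true_and, Set.mem_ofPred_eq]
    refine ⟨?_, ?_, ?_⟩
    · intro i' hi'
      rw [mem_erase] at hi'
      obtain ⟨j', h1, h2⟩ := hφ.1 i' hi'.2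
      exact ⟨j', h1, by rw [Function.update_of_ne hi'.1, h2]⟩
    · intro i' hi'
      by_cases h : i' = i
      · rw [h, Function.update_self]
      · rw [Function.update_of_ne h]
        apply hφ.2.1
        intro h2
        exact hi' (mem_erase.2 ⟨h, h2⟩)
    · intro j'
      have e1 : ({i' | Function.update φ i none i' = some j'} : Finset ι) =
          ({i' | φ i' = some j'} : Finset ι).erase i := by
        ext i'
        simp only [mem_filter, mem_univ, true_and, mem_erase]
        by_cases h : i' = i
        · rw [h, Function.update_self]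
          simp
        · rw [Function.update_of_ne h]
          simp [h]
      rw [e1]
      by_cases h : j' = j
      · rw [h, Function.update_self, card_erase_of_mem (by simp [hj]), hφ.2.2 j]
      · rw [Function.update_of_ne h, erase_eq_of_notMem, hφ.2.2 j']
        simp only [mem_filter, mem_univ, true_and]
        rw [hj]
        intro h2
        exact h (Option.some.inj h2).symm
  · intro φ hφ φ' hφ' h
    simp only [coe_filter, Set.mem_ofPred_eq] at hφ hφ'
    funext i'
    by_cases h2 : i' = i
    · rw [h2, hφ.2, hφ'.2]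
    · have := congrFun h i'
      simp only [Function.update_of_ne h2] at this
      exact this

omit [Fintype ι] [Fintype κ] in
theorem dg_erase {I : Finset ι} {i : ι} (hi : i ∈ I) (j : κ) :
    dg A (I.erase i) j = if j ∈ A i then dg A I j - 1 else dg A I j := by
  unfold dg
  rw [filter_erase]
  split_ifs with h
  · rw [card_erase_of_mem]
    simp [hi, h]
  · rw [erase_eq_of_notMem]
    simp [h]

theorem alpha_le_dg {I : Finset ι} {α : κ → ℕ} {φ : ι → Option κ} (hφ : φ ∈ Conf A I α) (j : κ) :
    α j ≤ dg A I j := by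
  rw [← filter_eq hφ j]
  apply card_le_card
  intro i hi
  rw [mem_filter] at hi ⊢
  refine ⟨hi.1, ?_⟩
  simp only [Conf, mem_filter, mem_univ, true_and] at hφ
  obtain ⟨j', h1, h2⟩ := hφ.1 i hi.1
  rw [hi.2] at h2
  cases h2
  exact h1

theorem sum_alpha {I : Finset ι} {α : κ → ℕ} {φ : ι → Option κ} (hφ : φ ∈ Conf A I α) :
    ∑ j, α j = #I := by
  have h1 : ∀ j, α j = ∑ i ∈ I, if φ i = some j then 1 else 0 := by
    intro j
    rw [← filter_eq hφ j, card_filter]
  simp only [h1]
  rw [sum_comm, card_eq_sum_ones]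
  apply sum_congr rfl
  intro i hi
  simp only [Conf, mem_filter, mem_univ, true_and] at hφ
  obtain ⟨j', -, h2⟩ := hφ.1 i hi
  rw [h2]
  simp

/-- the summand of the bound after the removal of a row -/
noncomputable def bb (A : ι → Finset κ) (I : Finset ι) (α : κ → ℕ) (φ : ι → Option κ) (j : κ)
    (i : ι) : ℝ :=
  if φ i = some j then ((α j : ℝ) - 1) * R (dg A I j - 1) - (log ((α j).factorial : ℝ) - log (α j))
  else if j ∈ A i then (α j : ℝ) * R (dg A I j - 1) - log ((α j).factorial : ℝ)
  else (α j : ℝ) * R (dg A I j) - log ((α j).factorial : ℝ)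

theorem log_fact_pred (a : ℕ) (ha : 1 ≤ a) :
    log ((a - 1).factorial : ℝ) = log (a.factorial : ℝ) - log (a : ℝ) := by
  obtain ⟨b, rfl⟩ : ∃ b, a = b + 1 := ⟨a - 1, by omega⟩
  have h1 : ((b + 1 : ℕ) : ℝ) ≠ 0 := by positivity
  have h2 : (b.factorial : ℝ) ≠ 0 := by positivity
  rw [Nat.factorial_succ, Nat.cast_mul, log_mul h1 h2]
  simp

theorem Bd_erase {I : Finset ι} {α : κ → ℕ} {φ : ι → Option κ} (hφ : φ ∈ Conf A I α) {i : ι}
    (hi : i ∈ I) {j : κ} (hj : φ i = some j) :
    Bd A (I.erase i) (Function.update α j (α j - 1)) = ∑ j', bb A I α φ j' i := by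
  unfold Bd
  apply sum_congr rfl
  intro j' _
  unfold bb
  rw [dg_erase hi]
  have hjA : j ∈ A i := by
    simp only [Conf, mem_filter, mem_univ, true_and] at hφ
    obtain ⟨j', h1, h2⟩ := hφ.1 i hi
    rw [hj] at h2
    cases h2
    exact h1
  by_cases h : j' = j
  · subst h
    have h1 : 1 ≤ α j' := by
      rw [← filter_eq hφ j']
      rw [Nat.one_le_iff_ne_zero, card_ne_zero]
      exact ⟨i, by simp [hi, hj]⟩
    rw [Function.update_self, if_pos hj, if_pos hjA, log_fact_pred _ h1, Nat.cast_sub h1,
      Nat.cast_one]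
  · have hne : ¬ φ i = some j' := by
      rw [hj]
      intro h2
      exact h (Option.some.inj h2).symm
    rw [Function.update_of_ne h, if_neg hne]
    split_ifs <;> rfl

theorem sum_bb {I : Finset ι} {α : κ → ℕ} {φ : ι → Option κ} (hφ : φ ∈ Conf A I α) (j : κ) :
    ∑ i ∈ I, bb A I α φ j i = (#I : ℝ) * ((α j : ℝ) * R (dg A I j) - log ((α j).factorial : ℝ)) +
      α j * log ((α j : ℝ) / dg A I j) := by
  have hle := alpha_le_dg hφ j
  have hsub : ∀ i ∈ I, φ i = some j → j ∈ A i := by
    intro i hi hj
    simp only [Conf, mem_filter, mem_univ, true_and] at hφ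
    obtain ⟨j', h1, h2⟩ := hφ.1 i hi
    rw [hj] at h2
    cases h2
    exact h1
  have h1 : ∀ i ∈ I, bb A I α φ j i = 
      ((α j : ℝ) * R (dg A I j) - log ((α j).factorial : ℝ)) +
      (if j ∈ A i then (α j : ℝ) * R (dg A I j - 1) - (α j : ℝ) * R (dg A I j) else 0) +
      (if φ i = some j then log (α j) - R (dg A I j - 1) else 0) := by
    intro i hi
    unfold bb
    by_cases h : φ i = some j
    · rw [if_pos h, if_pos h, if_pos (hsub i hi h)]
      ring
    · rw [if_neg h, if_neg h]
      split_ifs <;> ring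
  rw [sum_congr rfl h1, sum_add_distrib, sum_add_distrib, sum_const, ← sum_filter, sum_const,
    ← sum_filter, sum_const, filter_eq hφ j]
  change #I • _ + (dg A I j) • _ + _ = _
  simp only [nsmul_eq_mul]
  rcases Nat.eq_zero_or_pos (dg A I j) with h0 | h0
  · rw [h0] at hle ⊢
    have : α j = 0 := by omega
    rw [this]
    simp
  · have h2 := mul_R (dg A I j - 1)
    rw [log_fact_pred _ h0, Nat.cast_sub h0, Nat.cast_one] at h2
    have h3 := mul_R (dg A I j)
    rcases Nat.eq_zero_or_pos (α j) with ha | ha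
    · rw [ha]
      simp
    · have hd : (dg A I j : ℝ) ≠ 0 := by positivity
      have ha' : (α j : ℝ) ≠ 0 := by positivity
      rw [log_div ha' hd]
      linear_combination (α j : ℝ) * h2 - (α j : ℝ) * h3

theorem card_conf_le (I : Finset ι) : ∀ α : κ → ℕ, (Conf A I α).Nonempty →
    log (#(Conf A I α) : ℝ) ≤ Bd A I α := by
  induction hn : #I generalizing I with
  | zero =>
    intro α hne
    rw [card_eq_zero] at hn
    subst hn
    have hα : ∀ j, α j = 0 := by
      obtain ⟨φ, hφ⟩ := hne
      intro j
      rw [← filter_eq hφ j]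
      simp
    have h1 : #(Conf A ∅ α) ≤ 1 := by
      rw [card_le_one]
      intro φ hφ φ' hφ'
      simp only [Conf, mem_filter, mem_univ, true_and, notMem_empty, not_false_eq_true] at hφ hφ'
      funext i
      rw [hφ.2.1 i trivial, hφ'.2.1 i trivial]
    have h2 : #(Conf A ∅ α) = 1 := le_antisymm h1 (card_pos.2 hne)
    rw [h2]
    unfold Bd
    simp [hα]
  | succ m ih =>
    intro α hne
    obtain ⟨φ₀, hφ₀⟩ := hne
    have hfpos : (0 : ℝ) < #(Conf A I α) := by
      exact_mod_cast card_pos.2 ⟨φ₀, hφ₀⟩
    have hsum : ∑ j, (α j : ℝ) = #I := by exact_mod_cast sum_alpha hφ₀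
    -- (a)
    have ha : ∀ j, (α j : ℝ) * #(Conf A I α) * (log #(Conf A I α) + log ((α j : ℝ) / dg A I j)) ≤
        ∑ i ∈ I with j ∈ A i, (#{φ ∈ Conf A I α | φ i = some j} : ℝ) *
          log (#{φ ∈ Conf A I α | φ i = some j} : ℝ) := by
      intro j
      rcases Nat.eq_zero_or_pos (dg A I j) with h0 | h0
      · have hle := alpha_le_dg hφ₀ j
        have h1 : α j = 0 := by omega
        have h2 : ({i ∈ I | j ∈ A i} : Finset ι) = ∅ := card_eq_zero.1 h0
        rw [h1, h2]
        simp
      · have h := jensen ({i ∈ I | j ∈ A i} : Finset ι)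
          (fun i => (#{φ ∈ Conf A I α | φ i = some j} : ℝ)) (fun i _ => Nat.cast_nonneg _) h0
        have h1 : ∑ i ∈ I with j ∈ A i, (#{φ ∈ Conf A I α | φ i = some j} : ℝ) =
            (α j : ℝ) * #(Conf A I α) := by exact_mod_cast sum_fiber I α j
        rw [h1] at h
        rcases Nat.eq_zero_or_pos (α j) with h2 | h2
        · rw [h2] at h ⊢
          simpa using h
        · have e : log ((α j : ℝ) * #(Conf A I α) / #{i ∈ I | j ∈ A i}) =
              log #(Conf A I α) + log ((α j : ℝ) / dg A I j) := by
            have hd : (dg A I j : ℝ) ≠ 0 := by positivity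
            have ha' : (α j : ℝ) ≠ 0 := by positivity
            rw [← log_mul hfpos.ne' (by positivity)]
            congr 1
            unfold dg
            ring
          rw [e] at h
          exact h
    -- (b), (c)
    have hb : ∑ j, ∑ i ∈ I with j ∈ A i, (#{φ ∈ Conf A I α | φ i = some j} : ℝ) *
          log (#{φ ∈ Conf A I α | φ i = some j} : ℝ) ≤
        ∑ φ ∈ Conf A I α, ∑ i ∈ I, ∑ j, bb A I α φ j i := by
      have e1 : ∑ j, ∑ i ∈ I with j ∈ A i, (#{φ ∈ Conf A I α | φ i = some j} : ℝ) *
          log (#{φ ∈ Conf A I α | φ i = some j} : ℝ) ≤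
          ∑ j, ∑ i ∈ I, ∑ φ ∈ Conf A I α, if φ i = some j then
            log (#{φ ∈ Conf A I α | φ i = some j} : ℝ) else 0 := by
        apply sum_le_sum
        intro j _
        rw [sum_filter]
        apply sum_le_sum
        intro i _
        rw [← sum_filter, sum_const, nsmul_eq_mul]
        split_ifs with h
        · exact le_rfl
        · apply mul_nonneg (Nat.cast_nonneg _)
          exact Real.log_natCast_nonneg _
      refine e1.trans ?_
      rw [sum_comm]
      have e2 : ∀ i ∈ I, ∑ j, ∑ φ ∈ Conf A I α, (if φ i = some j then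
            log (#{φ ∈ Conf A I α | φ i = some j} : ℝ) else 0) =
          ∑ φ ∈ Conf A I α, ∑ j, if φ i = some j then
            log (#{φ ∈ Conf A I α | φ i = some j} : ℝ) else 0 := fun i _ => sum_comm
      rw [sum_congr rfl e2, sum_comm]
      apply sum_le_sum
      intro φ hφ
      apply sum_le_sum
      intro i hi
      obtain ⟨j, -, hj⟩ : ∃ j ∈ A i, φ i = some j := by
        have := hφ
        simp only [Conf, mem_filter, mem_univ, true_and] at this
        exact this.1 i hi
      have e3 : (∑ j', if φ i = some j' then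
            log (#{φ ∈ Conf A I α | φ i = some j'} : ℝ) else 0) =
          log (#{φ ∈ Conf A I α | φ i = some j} : ℝ) := by
        rw [sum_eq_single j]
        · rw [if_pos hj]
        · intro j' _ h
          rw [if_neg]
          rw [hj]
          intro h2
          exact h (Option.some.inj h2).symm
        · intro h
          exact absurd (mem_univ _) h
      rw [e3, ← Bd_erase hφ hi hj]
      have hpos : 0 < #{φ ∈ Conf A I α | φ i = some j} := card_pos.2 ⟨φ, by simp [hφ, hj]⟩
      have hle := fiber_le (A := A) (I := I) (α := α) (i := i) j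
      refine le_trans ?_ (ih (I.erase i) (by rw [card_erase_of_mem hi, hn]; rfl)
        (Function.update α j (α j - 1)) (card_pos.1 (by omega)))
      apply Real.log_le_log
      · exact_mod_cast hpos
      · exact_mod_cast hle
    -- (d)
    have hd : ∑ φ ∈ Conf A I α, ∑ i ∈ I, ∑ j, bb A I α φ j i =
        #(Conf A I α) * ((#I : ℝ) * Bd A I α + ∑ j, α j * log ((α j : ℝ) / dg A I j)) := by
      rw [← nsmul_eq_mul, ← sum_const]
      apply sum_congr rfl
      intro φ hφ
      rw [sum_comm]
      unfold Bd
      rw [mul_sum, ← sum_add_distrib]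
      apply sum_congr rfl
      intro j _
      exact sum_bb hφ j
    have hfin : ∑ j, (α j : ℝ) * #(Conf A I α) * (log #(Conf A I α) + log ((α j : ℝ) / dg A I j)) ≤
        #(Conf A I α) * ((#I : ℝ) * Bd A I α + ∑ j, α j * log ((α j : ℝ) / dg A I j)) := by
      rw [← hd]
      exact (sum_le_sum fun j _ => ha j).trans hb
    have e : ∑ j, (α j : ℝ) * #(Conf A I α) * (log #(Conf A I α) + log ((α j : ℝ) / dg A I j)) =
        #(Conf A I α) * ((#I : ℝ) * log #(Conf A I α) + ∑ j, α j * log ((α j : ℝ) / dg A I j)) := by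
      rw [← hsum, sum_mul, ← sum_add_distrib, mul_sum]
      apply sum_congr rfl
      intro j _
      ring
    rw [e] at hfin
    have h1 := le_of_mul_le_mul_left hfin hfpos
    have h2 : (#I : ℝ) * log #(Conf A I α) ≤ (#I : ℝ) * Bd A I α := by linarith
    have hIpos : (0 : ℝ) < #I := by rw [hn]; positivity
    exact le_of_mul_le_mul_left h2 hIpos

end Entropy


/-! ### The inequality for one colour -/

/-- `a log (q+1) - log a!` -/
noncomputable def Phi (q a : ℕ) : ℝ := a * log ((q : ℝ) + 1) - log (a.factorial : ℝ)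

theorem log_fact_succ (a : ℕ) : log ((a + 1).factorial : ℝ) = log (a.factorial : ℝ) + log ((a : ℝ) + 1) := by
  have h1 : ((a : ℝ) + 1) ≠ 0 := by positivity
  have h2 : (a.factorial : ℝ) ≠ 0 := by positivity
  rw [Nat.factorial_succ, Nat.cast_mul, Nat.cast_add, Nat.cast_one, log_mul h1 h2, add_comm]

theorem Phi_succ (q a : ℕ) : Phi q (a + 1) = Phi q a + (log ((q : ℝ) + 1) - log ((a : ℝ) + 1)) := by
  unfold Phi
  rw [log_fact_succ]
  push_cast
  ring

theorem Phi_le (q a : ℕ) : Phi q a ≤ Phi q q := by
  rcases le_total a q with h | h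
  · obtain ⟨m, rfl⟩ := Nat.exists_eq_add_of_le h
    have key : ∀ j, j ≤ m → Phi (a + m) a ≤ Phi (a + m) (a + j) := by
      intro j
      induction j with
      | zero => intro _; exact le_rfl
      | succ j ih =>
        intro hj
        refine (ih (by omega)).trans ?_
        rw [← add_assoc, Phi_succ]
        have : log (((a + j : ℕ) : ℝ) + 1) ≤ log (((a + m : ℕ) : ℝ) + 1) := by
          apply Real.log_le_log (by positivity)
          have : ((a + j : ℕ) : ℝ) ≤ ((a + m : ℕ) : ℝ) := by exact_mod_cast (by omega : a + j ≤ a + m)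
          linarith
        linarith
    exact key m le_rfl
  · induction a, h using Nat.le_induction with
    | base => exact le_rfl
    | succ a h ih =>
      rw [Phi_succ]
      have : log ((q : ℝ) + 1) ≤ log ((a : ℝ) + 1) := by
        apply Real.log_le_log (by positivity)
        have : (q : ℝ) ≤ a := by exact_mod_cast h
        linarith
      linarith

/-- `log (n+1) - log n! / n` -/
noncomputable def lam (n : ℕ) : ℝ := log ((n : ℝ) + 1) - R n

theorem R_succ (n : ℕ) : ((n : ℝ) + 1) * R (n + 1) = ((n : ℝ) + 1) * R n + lam n := by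
  have h1 := mul_R (n + 1)
  have h2 := mul_R n
  rw [log_fact_succ] at h1
  push_cast at h1
  unfold lam
  linear_combination h1 - h2

theorem u_mono (i : ℕ) (hi : 1 ≤ i) : (i : ℝ) * (log ((i : ℝ) + 1) - log i) ≤
    ((i : ℝ) + 1) * (log ((i : ℝ) + 2) - log ((i : ℝ) + 1)) := by
  have hi' : (0 : ℝ) < i := by exact_mod_cast hi
  have hconc : ConcaveOn ℝ (Set.Ioi 0) log := strictConcaveOn_log_Ioi.concaveOn
  have hx : ((i : ℝ) + 1) / i ∈ Set.Ioi (0 : ℝ) := Set.mem_Ioi.2 (by positivity)
  have hy : (1 : ℝ) ∈ Set.Ioi (0 : ℝ) := Set.mem_Ioi.2 one_pos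
  have ha0 : 0 ≤ (i : ℝ) / (i + 1) := by positivity
  have hb0 : 0 ≤ 1 / ((i : ℝ) + 1) := by positivity
  have hab : (i : ℝ) / (i + 1) + 1 / ((i : ℝ) + 1) = 1 := by field_simp
  have h := hconc.2 hx hy ha0 hb0 hab
  simp only [smul_eq_mul, log_one, mul_zero, add_zero, mul_one] at h
  have e : (i : ℝ) / (i + 1) * (((i : ℝ) + 1) / i) + 1 / ((i : ℝ) + 1) = ((i : ℝ) + 2) / (i + 1) := by
    field_simp
    ring
  rw [e, log_div (by positivity) (by positivity), log_div (by positivity) (by positivity)] at h
  have h2 := mul_le_mul_of_nonneg_left h (by positivity : (0 : ℝ) ≤ (i : ℝ) + 1)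
  have e2 : ((i : ℝ) + 1) * ((i : ℝ) / (i + 1) * (log ((i : ℝ) + 1) - log i)) =
      (i : ℝ) * (log ((i : ℝ) + 1) - log i) := by
    field_simp
  rw [e2] at h2
  exact h2

theorem lam_succ (n : ℕ) : ((n : ℝ) + 1) * lam (n + 1) =
    ((n : ℝ) + 1) * (log ((n : ℝ) + 2) - log ((n : ℝ) + 1)) + n * lam n := by
  have h := R_succ n
  have e : lam (n + 1) = log ((n : ℝ) + 2) - R (n + 1) := by
    unfold lam
    push_cast
    congr 2
    ring
  rw [e]
  have e2 : lam n = log ((n : ℝ) + 1) - R n := rfl
  rw [e2] at h ⊢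
  linear_combination -h

theorem lam_le (n : ℕ) (hn : 1 ≤ n) : lam n ≤ (n : ℝ) * (log ((n : ℝ) + 1) - log n) := by
  induction n, hn using Nat.le_induction with
  | base => simp [lam, R]
  | succ n hn ih =>
    have h1 := lam_succ n
    have h2 := u_mono n hn
    have h3 : (n : ℝ) * lam n ≤ n * (((n : ℝ) + 1) * (log ((n : ℝ) + 2) - log ((n : ℝ) + 1))) :=
      mul_le_mul_of_nonneg_left (ih.trans h2) (by positivity)
    have h4 : ((n : ℝ) + 1) * lam (n + 1) ≤ ((n : ℝ) + 1) *
        (((n : ℝ) + 1) * (log ((n : ℝ) + 2) - log ((n : ℝ) + 1))) := by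
      rw [h1]
      linarith
    have h5 := le_of_mul_le_mul_left h4 (by positivity)
    push_cast
    have e : (n : ℝ) + 1 + 1 = n + 2 := by ring
    rw [e]
    exact h5

theorem lam_mono (a n : ℕ) (ha : 1 ≤ a) (h : a ≤ n) : lam a ≤ lam n := by
  induction n, h using Nat.le_induction with
  | base => exact le_rfl
  | succ n h ih =>
    refine ih.trans ?_
    have h1 := lam_succ n
    have h2 := lam_le n (by omega)
    have h3 := u_mono n (by omega)
    have h4 : ((n : ℝ) + 1) * lam n ≤ ((n : ℝ) + 1) * lam (n + 1) := by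
      rw [h1]
      linarith
    exact le_of_mul_le_mul_left h4 (by positivity)

theorem colour (q d n : ℕ) (hd : 1 ≤ d) (hdn : d ≤ n) : ∀ a, a ≤ d →
    (n : ℝ) * (a * (log ((q : ℝ) + 1) + R d - R n) - log (a.factorial : ℝ)) ≤ d * Phi q q := by
  induction n, hdn using Nat.le_induction with
  | base =>
    intro a _
    apply mul_le_mul_of_nonneg_left _ (by positivity)
    refine le_trans (le_of_eq ?_) (Phi_le q a)
    unfold Phi
    ring
  | succ n hdn ih =>
    intro a ha
    have hR := R_succ n
    have hnpos : (0 : ℝ) < n := by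
      have : 1 ≤ n := le_trans hd hdn
      exact_mod_cast this
    generalize hx : log ((q : ℝ) + 1) + R d - R n = x at ih
    have e1 : (((n + 1 : ℕ) : ℝ)) * (a * (log ((q : ℝ) + 1) + R d - R (n + 1)) -
        log (a.factorial : ℝ)) = ((n : ℝ) + 1) * a * x - a * lam n -
        ((n : ℝ) + 1) * log (a.factorial : ℝ) := by
      rw [← hx]
      push_cast
      linear_combination (-(a : ℝ)) * hR
    rcases eq_or_lt_of_le ha with had | had
    · subst had
      have h1 := Phi_le q (n + 1)
      have h2 := mul_R a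
      have h3 := mul_R (n + 1)
      have e2 : (((n + 1 : ℕ) : ℝ)) * (a * (log ((q : ℝ) + 1) + R a - R (n + 1)) -
          log (a.factorial : ℝ)) = a * Phi q (n + 1) := by
        unfold Phi
        linear_combination (((n + 1 : ℕ) : ℝ)) * h2 - (a : ℝ) * h3
      rw [e2]
      exact mul_le_mul_of_nonneg_left h1 (by positivity)
    · rw [e1]
      have hl : (a : ℝ) * log ((a : ℝ) + 1) - log (a.factorial : ℝ) ≤ a * lam n := by
        rcases Nat.eq_zero_or_pos a with h0 | h0
        · subst h0; simp
        · have h1 := lam_mono a n h0 (by omega)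
          have h2 : (a : ℝ) * log ((a : ℝ) + 1) - log (a.factorial : ℝ) = a * lam a := by
            rw [← mul_R a]
            unfold lam
            ring
          rw [h2]
          exact mul_le_mul_of_nonneg_left h1 (by positivity)
      rcases le_total x (log ((a : ℝ) + 1)) with hx1 | hx1
      · have h1 := ih a ha
        have h2 : (a : ℝ) * x ≤ a * log ((a : ℝ) + 1) := mul_le_mul_of_nonneg_left hx1 (by positivity)
        nlinarith
      · have h1 := ih (a + 1) had
        rw [log_fact_succ] at h1
        push_cast at h1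
        have h2 : 0 ≤ ((n : ℝ) - a) * (x - log ((a : ℝ) + 1)) := by
          apply mul_nonneg
          · have : (a : ℝ) ≤ n := by exact_mod_cast (by omega : a ≤ n)
            linarith
          · linarith
        nlinarith


/-! ### The coefficients -/

section Final

variable {n k r : ℕ} (x : Fin n → Fin k → Fin r)

theorem S_eq : S x = ∑ φ : Fin n → Fin k,
    MvPolynomial.monomial (∑ i, Finsupp.single (x i (φ i)) 1) (1 : ℤ) := by
  unfold S
  rw [Finset.prod_univ_sum, Fintype.piFinset_univ]
  apply sum_congr rfl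
  intro φ _
  rw [MvPolynomial.monomial_sum_one]
  rfl

theorem coeff_S (α : Fin r →₀ ℕ) : MvPolynomial.coeff α (S x) =
    (#{φ : Fin n → Fin k | ∀ j, #{i | x i (φ i) = j} = α j} : ℤ) := by
  rw [S_eq, MvPolynomial.coeff_sum, card_filter]
  push_cast
  apply sum_congr rfl
  intro φ _
  rw [MvPolynomial.coeff_monomial]
  congr 1
  rw [eq_iff_iff, Finsupp.ext_iff]
  apply forall_congr'
  intro j
  rw [Finsupp.finsetSum_apply, card_filter]
  simp only [Finsupp.single_apply]

variable {x}

theorem card_conf_eq (hx : ∀ i, Function.Injective (x i)) (α : Fin r → ℕ) :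
    #{φ : Fin n → Fin k | ∀ j, #{i | x i (φ i) = j} = α j} ≤
      #(Conf (fun i => univ.image (x i)) univ α) := by
  apply card_le_card_of_injOn (fun φ i => some (x i (φ i)))
  · intro φ hφ
    simp only [coe_filter, mem_univ, true_and, Set.mem_ofPred_eq] at hφ
    simp only [Conf, coe_filter, mem_univ, true_and, Set.mem_ofPred_eq, forall_true_left,
      not_true_eq_false, false_implies, implies_true, Option.some.injEq]
    refine ⟨fun i => ⟨x i (φ i), by simp, rfl⟩, hφ⟩
  · intro φ _ φ' _ h
    funext i
    have := congrFun h i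
    exact hx i (Option.some.inj this)

theorem sum_dg (hx : ∀ i, Function.Injective (x i)) :
    ∑ j, dg (fun i => univ.image (x i)) univ j = n * k := by
  unfold dg
  simp only [card_filter]
  rw [sum_comm]
  have : ∀ i, (∑ j, if j ∈ univ.image (x i) then 1 else 0) = k := by
    intro i
    rw [← card_filter, filter_mem_eq_inter, univ_inter, card_image_of_injective _ (hx i),
      card_univ, Fintype.card_fin]
  simp only [this, sum_const, card_univ, Fintype.card_fin, smul_eq_mul]

theorem log_M (n k : ℕ) (hk : 1 ≤ k) : log ((M n k : ℚ) : ℝ) =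
    k * Phi (n / k) (n / k) - n * log (((n / k : ℕ) : ℝ) + 1) + log (n.factorial : ℝ) := by
  unfold M
  push_cast
  have h1 : ((n.factorial : ℕ) : ℝ) ≠ 0 := by positivity
  have h2 : ((((n / k + 1).factorial : ℕ) : ℝ)) ≠ 0 := by positivity
  have h3 : ((((n / k).factorial : ℕ) : ℝ)) ≠ 0 := by positivity
  rw [log_div h1 (by positivity), log_mul (by positivity) (by positivity), log_pow, log_pow,
    log_fact_succ, Nat.cast_sub (Nat.mod_lt n hk).le]
  have h4 : (n : ℝ) = k * ((n / k : ℕ) : ℝ) + ((n % k : ℕ) : ℝ) := by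
    exact_mod_cast (Nat.div_add_mod n k).symm
  unfold Phi
  generalize ((n % k : ℕ) : ℝ) = s at *
  generalize ((n / k : ℕ) : ℝ) = q at *
  rw [h4]
  ring

theorem result_aux (hk : 1 ≤ k) (hn : 1 ≤ n) (hx : ∀ i, Function.Injective (x i))
    (α : Fin r →₀ ℕ) : ((MvPolynomial.coeff α (S x) : ℤ) : ℚ) ≤ M n k := by
  have hMpos : (0 : ℚ) < M n k := by
    unfold M
    positivity
  rw [coeff_S]
  set N := #{φ : Fin n → Fin k | ∀ j, #{i | x i (φ i) = j} = α j} with hN
  rcases Nat.eq_zero_or_pos N with h0 | h0
  · rw [h0]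
    exact_mod_cast hMpos.le
  · have hle := card_conf_eq hx α
    rw [← hN] at hle
    have hne : (Conf (fun i => univ.image (x i)) univ α).Nonempty := card_pos.1 (by omega)
    have h1 := card_conf_le univ α hne
    have h2 : Bd (fun i => univ.image (x i)) univ α ≤ log ((M n k : ℚ) : ℝ) := by
      rw [log_M n k hk]
      set q := n / k
      obtain ⟨φ, hφ⟩ := hne
      have hsa : ∑ j, (α j : ℝ) = n := by
        have := sum_alpha hφ
        rw [card_univ, Fintype.card_fin] at this
        exact_mod_cast this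
      have hsd : ∑ j, (dg (fun i => univ.image (x i)) univ j : ℝ) = n * k := by
        exact_mod_cast sum_dg hx
      have hcol : ∀ j, (n : ℝ) * ((α j : ℝ) * R (dg (fun i => univ.image (x i)) univ j) -
          log ((α j).factorial : ℝ)) ≤
          (dg (fun i => univ.image (x i)) univ j : ℝ) * Phi q q -
            n * (α j * (log ((q : ℝ) + 1) - R n)) := by
        intro j
        have had := alpha_le_dg hφ j
        have hdn : dg (fun i => univ.image (x i)) univ j ≤ n := by
          unfold dg
          refine (card_filter_le _ _).trans ?_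
          rw [card_univ, Fintype.card_fin]
        rcases Nat.eq_zero_or_pos (dg (fun i => univ.image (x i)) univ j) with h | h
        · rw [h] at had ⊢
          have : α j = 0 := by omega
          rw [this]
          simp
        · have := colour q _ n h hdn (α j) had
          linarith
      have hsum := sum_le_sum (fun j (_ : j ∈ (univ : Finset (Fin r))) => hcol j)
      have hrhs : ∑ j, ((dg (fun i => univ.image (x i)) univ j : ℝ) * Phi q q -
          n * (α j * (log ((q : ℝ) + 1) - R n))) =
          (n * k : ℝ) * Phi q q - n * (n * (log ((q : ℝ) + 1) - R n)) := by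
        rw [sum_sub_distrib, ← sum_mul, hsd, ← mul_sum, ← sum_mul, hsa]
      rw [← mul_sum, hrhs] at hsum
      have hnR := mul_R n
      have hn' : (0 : ℝ) < n := by exact_mod_cast hn
      have e : (n : ℝ) * Bd (fun i => univ.image (x i)) univ α ≤
          n * (k * Phi q q - n * log ((q : ℝ) + 1) + log (n.factorial : ℝ)) := by
        unfold Bd
        refine hsum.trans (le_of_eq ?_)
        rw [← hnR]
        ring
      exact le_of_mul_le_mul_left e hn'
    have h3 : (N : ℝ) ≤ ((M n k : ℚ) : ℝ) := by
      have hNpos : (0 : ℝ) < N := by exact_mod_cast h0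
      have hMpos' : (0 : ℝ) < ((M n k : ℚ) : ℝ) := by exact_mod_cast hMpos
      rw [← Real.log_le_log_iff hNpos hMpos']
      refine le_trans ?_ (h1.trans h2)
      apply Real.log_le_log hNpos
      exact_mod_cast hle
    exact_mod_cast h3

end Final

/-- **Theorem.** For all `k ≥ 3` (indeed `k ≥ 1`), `n ≥ 1`, `r` and every assignment of the symbols
`x_{i,j}` to the variables `c_1, …, c_r` that is injective on each factor, every coefficient of the
resulting polynomial is at most the balanced multinomial coefficient `M(n,k)`. -/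
theorem result (k n r : ℕ) (hk : 1 ≤ k) (hn : 1 ≤ n) (x : Fin n → Fin k → Fin r)
    (hx : ∀ i, Function.Injective (x i)) (α : Fin r →₀ ℕ) :
    ((MvPolynomial.coeff α (S x) : ℤ) : ℚ) ≤ M n k :=
  result_aux hk hn hx α

end Pool.Agent.Results.MP_3eac50_co.BalancedMultinomial
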